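import Mathlib

/-!
# True twins and wheels

Adding a true twin of a vertex keeps a graph edge-pancyclic; wheels are edge-pancyclic.
-/

set_option autoImplicit false

namespace Pool.Agent.KS6_21.EP

open SimpleGraph

/-- `e` is an edge of a cycle of length `k` of `G` (for `k ≥ 3`): a closed walk
`f 0, f 1, …, f k = f 0` with `f 0, …, f (k - 1)` distinct, of which `e` is a step. -/
def InCycle {V : Type} (G : SimpleGraph V) (k : ℕ) (e : Sym2 V) : Prop :=
  ∃ f : ℕ → V, Set.InjOn f (Set.Iio k) ∧ f k = f 0 ∧ (∀ j < k, G.Adj (f j) (f (j + 1))) ∧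
    ∃ j < k, s(f j, f (j + 1)) = e

/-- `G` has an edge, and every edge of `G` is in a cycle of length `k` for every `3 ≤ k ≤ n`, where
`n` is the number of vertices. -/
def EdgePancyclic {V : Type} [Fintype V] (G : SimpleGraph V) : Prop :=
  G.edgeSet.Nonempty ∧ ∀ e ∈ G.edgeSet, ∀ k, 3 ≤ k → k ≤ Fintype.card V → InCycle G k e

theorem InCycle.map {V W : Type} {G : SimpleGraph V} {H : SimpleGraph W} {k : ℕ} {e : Sym2 V}
    (h : InCycle G k e) (φ : V → W) (hφ : Function.Injective φ)
    (hadj : ∀ a b, G.Adj a b → H.Adj (φ a) (φ b)) : InCycle H k (e.map φ) := by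
  obtain ⟨f, h1, h2, h3, j, hj, he⟩ := h
  refine ⟨fun i => φ (f i), ?_, congrArg φ h2, fun i hi => hadj _ _ (h3 i hi), j, hj, ?_⟩
  · intro x hx y hy hxy
    exact h1 hx hy (hφ hxy)
  · rw [← he]; rfl

/-- A cycle through the edge `e` and the vertex `v`, started at `v`, such that `e` is not the
last step. -/
theorem InCycle.rot {V : Type} {G : SimpleGraph V} {k : ℕ} {e : Sym2 V} {f : ℕ → V}
    (hk : 3 ≤ k) (h1 : Set.InjOn f (Set.Iio k)) (h2 : f k = f 0)
    (h3 : ∀ j < k, G.Adj (f j) (f (j + 1))) (h4 : ∃ j < k, s(f j, f (j + 1)) = e) {i : ℕ}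
    (hi : i < k) : ∃ g : ℕ → V, Set.InjOn g (Set.Iio k) ∧ g k = g 0 ∧
      (∀ j < k, G.Adj (g j) (g (j + 1))) ∧ g 0 = f i ∧ ∃ j, j + 1 < k ∧ s(g j, g (j + 1)) = e := by
  have hk0 : 0 < k := by omega
  -- the successor in the closed walk
  have hs : ∀ t, f ((t + 1) % k) = f (t % k + 1) := by
    intro t
    have hlt := Nat.mod_lt t hk0
    rcases Nat.lt_or_ge (t % k + 1) k with h | h
    · rw [Nat.add_mod, Nat.mod_eq_of_lt (show 1 < k by omega), Nat.mod_eq_of_lt h]
    · have h5 : t % k + 1 = k := by omega
      rw [Nat.add_mod, Nat.mod_eq_of_lt (show 1 < k by omega), h5, Nat.mod_self, h2]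
  set g : ℕ → V := fun j => f ((i + j) % k) with hg
  have g0 : g 0 = f i := by simp [hg, Nat.mod_eq_of_lt hi]
  have gk : g k = g 0 := by simp [hg]
  have ginj : Set.InjOn g (Set.Iio k) := by
    intro x hx y hy hxy
    have hx' : x < k := hx
    have hy' : y < k := hy
    have h5 : (i + x) % k = (i + y) % k :=
      h1 (Nat.mod_lt _ hk0) (Nat.mod_lt _ hk0) hxy
    have h6 : x % k = y % k := Nat.ModEq.add_left_cancel' i h5
    rwa [Nat.mod_eq_of_lt hx', Nat.mod_eq_of_lt hy'] at h6
  have gadj : ∀ j < k, G.Adj (g j) (g (j + 1)) := by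
    intro j _
    have h5 : g (j + 1) = f ((i + j) % k + 1) := hs (i + j)
    rw [h5]
    exact h3 _ (Nat.mod_lt _ hk0)
  obtain ⟨t, ht, he⟩ := h4
  have hmod : (i + (t + k - i) % k) % k = t := by
    have h5 : (i + (t + k - i) % k) % k = (i + (t + k - i)) % k := Nat.ModEq.add_left i (Nat.mod_modEq _ _)
    rw [h5, show i + (t + k - i) = t + k by omega, Nat.add_mod_right, Nat.mod_eq_of_lt ht]
  set t' := (t + k - i) % k with ht'
  have ht'k : t' < k := Nat.mod_lt _ hk0
  have e1 : g t' = f t := by show f ((i + t') % k) = f t; rw [hmod]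
  have e2 : g (t' + 1) = f (t + 1) := by
    have h5 : g (t' + 1) = f ((i + t') % k + 1) := hs (i + t')
    rw [h5, hmod]
  rcases Nat.lt_or_ge (t' + 1) k with h | h
  · exact ⟨g, ginj, gk, gadj, g0, t', h, by rw [e1, e2, he]⟩
  · have h5 : t' + 1 = k := by omega
    refine ⟨fun j => g (k - j), ?_, ?_, ?_, ?_, 0, by omega, ?_⟩
    · intro x hx y hy hxy
      have hx' : x < k := hx
      have hy' : y < k := hy
      have h6 : ∀ z, z < k → g (k - z) = g ((k - z) % k) := by
        intro z hz
        rcases Nat.eq_zero_or_pos z with rfl | hz0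
        · rw [Nat.sub_zero, Nat.mod_self, gk]
        · rw [Nat.mod_eq_of_lt (show k - z < k by omega)]
      have h7 : g (k - x) = g (k - y) := hxy
      rw [h6 x hx', h6 y hy'] at h7
      have h8 := ginj (show (k - x) % k < k from Nat.mod_lt _ hk0)
        (show (k - y) % k < k from Nat.mod_lt _ hk0) h7
      rcases Nat.eq_zero_or_pos x with rfl | hx0
      · rcases Nat.eq_zero_or_pos y with rfl | hy0
        · rfl
        · rw [Nat.sub_zero, Nat.mod_self, Nat.mod_eq_of_lt (show k - y < k by omega)] at h8
          omega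
      · rcases Nat.eq_zero_or_pos y with rfl | hy0
        · rw [Nat.sub_zero, Nat.mod_self, Nat.mod_eq_of_lt (show k - x < k by omega)] at h8
          omega
        · rw [Nat.mod_eq_of_lt (show k - x < k by omega),
            Nat.mod_eq_of_lt (show k - y < k by omega)] at h8
          omega
    · show g (k - k) = g (k - 0)
      rw [Nat.sub_self, Nat.sub_zero, gk]
    · intro j hj
      have h6 := gadj (k - (j + 1)) (by omega)
      rw [show k - (j + 1) + 1 = k - j by omega] at h6
      exact h6.symm
    · show g (k - 0) = f i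
      rw [Nat.sub_zero, gk, g0]
    · show s(g (k - 0), g (k - (0 + 1))) = e
      rw [Nat.sub_zero, ← he, ← e1, ← e2, h5, show k - (0 + 1) = t' by omega]
      exact Sym2.eq_swap

/-- The graph obtained from `G` by adding a vertex `none` adjacent to `v` and to the neighbours
of `v`. -/
def twin {V : Type} (G : SimpleGraph V) (v : V) : SimpleGraph (Option V) where
  Adj x y := match x, y with
    | some a, some b => G.Adj a b
    | none, some a => a = v ∨ G.Adj v a
    | some a, none => a = v ∨ G.Adj v a
    | none, none => False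
  symm := ⟨by
    rintro (_ | a) (_ | b) h
    · exact h
    · exact h
    · exact h
    · exact G.adj_symm h⟩
  loopless := ⟨by
    rintro (_ | a) h
    · exact h
    · exact G.irrefl h⟩

theorem twin_some {V : Type} {G : SimpleGraph V} {v a b : V} :
    (twin G v).Adj (some a) (some b) ↔ G.Adj a b := Iff.rfl

theorem twin_none {V : Type} {G : SimpleGraph V} {v a : V} :
    (twin G v).Adj none (some a) ↔ a = v ∨ G.Adj v a := Iff.rfl

theorem twin_none' {V : Type} {G : SimpleGraph V} {v a : V} :
    (twin G v).Adj (some a) none ↔ a = v ∨ G.Adj v a := Iff.rfl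

/-- Inserting the twin into a cycle that starts at `v`. -/
theorem insert_twin {V : Type} {G : SimpleGraph V} {k : ℕ} {v : V} {g : ℕ → V} (hk : 3 ≤ k)
    (h1 : Set.InjOn g (Set.Iio k)) (h2 : g k = g 0) (h3 : ∀ j < k, G.Adj (g j) (g (j + 1)))
    (h0 : g 0 = v) :
    ∃ f : ℕ → Option V, Set.InjOn f (Set.Iio (k + 1)) ∧ f (k + 1) = f 0 ∧
      (∀ j < k + 1, (twin G v).Adj (f j) (f (j + 1))) ∧ f 0 = none ∧
      ∀ j < k, f (j + 1) = some (g j) := by
  refine ⟨fun j => if j = 0 ∨ j = k + 1 then none else some (g (j - 1)), ?_, ?_, ?_, ?_, ?_⟩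
  · intro x hx y hy hxy
    have hx' : x < k + 1 := hx
    have hy' : y < k + 1 := hy
    simp only at hxy
    rcases Nat.eq_zero_or_pos x with rfl | hx0
    · rcases Nat.eq_zero_or_pos y with rfl | hy0
      · rfl
      · rw [if_pos (Or.inl rfl), if_neg (by omega)] at hxy
        cases hxy
    · rcases Nat.eq_zero_or_pos y with rfl | hy0
      · rw [if_pos (Or.inl (rfl : (0 : ℕ) = 0)), if_neg (by omega)] at hxy
        cases hxy
      · rw [if_neg (by omega), if_neg (by omega)] at hxy
        have := h1 (show x - 1 < k by omega) (show y - 1 < k by omega) (Option.some_inj.1 hxy)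
        omega
  · simp
  · intro j hj
    beta_reduce
    rcases Nat.eq_zero_or_pos j with rfl | hj0
    · rw [if_pos (Or.inl rfl), if_neg (by omega)]
      rw [twin_none]
      exact Or.inl (by simpa using h0)
    · rw [if_neg (by omega)]
      rcases Nat.lt_or_ge j k with h | h
      · rw [if_neg (by omega)]
        have h5 := h3 (j - 1) (by omega)
        rw [show j - 1 + 1 = j + 1 - 1 by omega] at h5
        exact h5
      · have hjk : j = k := by omega
        subst hjk
        rw [if_pos (Or.inr rfl), twin_none']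
        have h5 := h3 (j - 1) (by omega)
        rw [show j - 1 + 1 = j by omega, h2, h0] at h5
        exact Or.inr h5.symm
  · simp
  · intro j hj
    show (if j + 1 = 0 ∨ j + 1 = k + 1 then none else some (g (j + 1 - 1))) = some (g j)
    rw [if_neg (by omega), Nat.add_sub_cancel]

/-- The automorphism that swaps the twins. -/
theorem swap_adj {V : Type} [DecidableEq V] {G : SimpleGraph V} {v : V} (x y : Option V)
    (h : (twin G v).Adj x y) :
    (twin G v).Adj (Equiv.swap none (some v) x) (Equiv.swap none (some v) y) := by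
  have hn : ∀ a, a ≠ v → Equiv.swap none (some v) (some a) = some a := by
    intro a ha
    exact Equiv.swap_apply_of_ne_of_ne (by simp) (by simpa using ha)
  rcases x with _ | a
  · rcases y with _ | b
    · exact h.elim
    · rw [Equiv.swap_apply_left]
      by_cases hb : b = v
      · subst hb
        rw [Equiv.swap_apply_right]
        exact Or.inl rfl
      · rw [hn b hb]
        exact (twin_none.1 h).resolve_left hb
  · rcases y with _ | b
    · rw [Equiv.swap_apply_left]
      by_cases ha : a = v
      · subst ha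
        rw [Equiv.swap_apply_right]
        exact Or.inl rfl
      · rw [hn a ha]
        exact ((twin_none'.1 h).resolve_left ha).symm
    · have h' : G.Adj a b := h
      by_cases ha : a = v
      · subst ha
        rw [Equiv.swap_apply_right, hn b (fun e => G.irrefl (e ▸ h'))]
        exact Or.inr h'
      · by_cases hb : b = v
        · subst hb
          rw [Equiv.swap_apply_right, hn a ha]
          exact Or.inr h'.symm
        · rw [hn a ha, hn b hb]
          exact h'

theorem twin_pancyclic {V : Type} [Fintype V] {G : SimpleGraph V} (hG : EdgePancyclic G)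
    (h3 : 3 ≤ Fintype.card V) (v : V) : EdgePancyclic (twin G v) := by
  classical
  obtain ⟨⟨e0, he0⟩, hc⟩ := hG
  have hcard : Fintype.card (Option V) = Fintype.card V + 1 := Fintype.card_option
  -- Hamiltonian cycles started at `v`
  have ham : ∀ e ∈ G.edgeSet, ∃ g : ℕ → V, Set.InjOn g (Set.Iio (Fintype.card V)) ∧
      g (Fintype.card V) = g 0 ∧ (∀ j < Fintype.card V, G.Adj (g j) (g (j + 1))) ∧ g 0 = v ∧
      ∃ j, j + 1 < Fintype.card V ∧ s(g j, g (j + 1)) = e := by
    intro e he
    obtain ⟨f, f1, f2, f3, f4⟩ := hc e he _ h3 le_rfl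
    have hsurj : ∃ i < Fintype.card V, f i = v := by
      have hb : Function.Bijective (fun i : Fin (Fintype.card V) => f i) := by
        rw [Fintype.bijective_iff_injective_and_card]
        refine ⟨fun x y hxy => Fin.ext (f1 x.2 y.2 hxy), by simp⟩
      obtain ⟨i, hi⟩ := hb.2 v
      exact ⟨i, i.2, hi⟩
    obtain ⟨i, hi, hiv⟩ := hsurj
    obtain ⟨g, g1, g2, g3, g4, g5⟩ := InCycle.rot h3 f1 f2 f3 f4 hi
    exact ⟨g, g1, g2, g3, g4.trans hiv, g5⟩
  -- a neighbour of `v`
  obtain ⟨g0, g01, g02, g03, g04, g05⟩ := ham e0 he0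
  have hnb : G.Adj v (g0 1) := by
    have := g03 0 (by omega)
    rwa [g04] at this
  -- edges of `G`
  have old : ∀ a b, G.Adj a b → ∀ k, 3 ≤ k → k ≤ Fintype.card V + 1 →
      InCycle (twin G v) k s(some a, some b) := by
    intro a b hab k hk hk'
    rcases Nat.lt_or_ge k (Fintype.card V + 1) with h | h
    · have h5 := (hc s(a, b) hab k hk (by omega)).map (H := twin G v) some
        (Option.some_injective V) (fun a b h => h)
      simpa using h5
    · have hk2 : k = Fintype.card V + 1 := by omega
      subst hk2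
      obtain ⟨g, g1, g2, g3, g4, j, hj, hj2⟩ := ham s(a, b) hab
      obtain ⟨f, f1, f2, f3, f4, f5⟩ := insert_twin h3 g1 g2 g3 g4
      refine ⟨f, f1, f2, f3, j + 1, by omega, ?_⟩
      rw [f5 j (by omega), f5 (j + 1) hj]
      have := congrArg (Sym2.map some) hj2
      simpa using this
  have new : ∀ a, G.Adj v a → ∀ k, 3 ≤ k → k ≤ Fintype.card V + 1 →
      InCycle (twin G v) k s(none, some a) := by
    intro a ha k hk hk'
    have h5 := (old v a ha k hk hk').map (H := twin G v) (Equiv.swap none (some v))
      (Equiv.swap none (some v)).injective swap_adj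
    rw [Sym2.map_mk, Equiv.swap_apply_right,
      Equiv.swap_apply_of_ne_of_ne (by simp) (by simpa using ha.ne')] at h5
    exact h5
  have both : ∀ k, 3 ≤ k → k ≤ Fintype.card V + 1 → InCycle (twin G v) k s(none, some v) := by
    intro k hk hk'
    rcases Nat.lt_or_ge k 4 with h | h
    · have hk2 : k = 3 := by omega
      subst hk2
      refine ⟨fun j => if j = 1 then some v else if j = 2 then some (g0 1) else none,
        ?_, ?_, ?_, 0, by omega, ?_⟩
      · intro x hx y hy hxy
        have hx' : x < 3 := hx
        have hy' : y < 3 := hy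
        have hne := hnb.ne
        interval_cases x <;> interval_cases y <;> simp_all
      · simp
      · intro j hj
        interval_cases j
        · exact Or.inl rfl
        · exact hnb
        · exact Or.inr hnb
      · simp
    · obtain ⟨f, f1, f2, f3, f4⟩ := hc s(v, g0 1) hnb (k - 1) (by omega) (by omega)
      obtain ⟨t, ht, ht2⟩ := f4
      have hiv : ∃ i < k - 1, f i = v := by
        have : v ∈ s(f t, f (t + 1)) := by rw [ht2]; exact Sym2.mem_mk_left _ _
        rcases Sym2.mem_iff.1 this with h6 | h6
        · exact ⟨t, ht, h6.symm⟩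
        · rcases Nat.lt_or_ge (t + 1) (k - 1) with h7 | h7
          · exact ⟨t + 1, h7, h6.symm⟩
          · exact ⟨0, by omega, by rw [h6, ← f2]; congr 1; omega⟩
      obtain ⟨i, hi, hiv⟩ := hiv
      obtain ⟨g, g1, g2, g3, g4, -⟩ := InCycle.rot (by omega) f1 f2 f3 ⟨t, ht, ht2⟩ hi
      obtain ⟨f', f1', f2', f3', f4', f5'⟩ := insert_twin (by omega) g1 g2 g3 (g4.trans hiv)
      rw [show k - 1 + 1 = k by omega] at f1' f2' f3'
      refine ⟨f', f1', f2', f3', 0, by omega, ?_⟩
      rw [f4', f5' 0 (by omega), g4, hiv]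
  refine ⟨⟨s(none, some v), ?_⟩, ?_⟩
  · rw [mem_edgeSet, twin_none]
    exact Or.inl rfl
  · intro e he k hk hk'
    rw [hcard] at hk'
    induction e with
    | _ x y =>
    rw [mem_edgeSet] at he
    rcases x with _ | a
    · rcases y with _ | b
      · exact he.elim
      · rcases he with h | h
        · subst h
          exact both k hk hk'
        · exact new b h k hk hk'
    · rcases y with _ | b
      · rw [Sym2.eq_swap]
        rcases he with h | h
        · subst h
          exact both k hk hk'
        · exact new a h k hk hk'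
      · exact old a b he k hk hk'

theorem twin_edges {V : Type} [Finite V] (G : SimpleGraph V) (v : V) :
    (twin G v).edgeSet.ncard ≤ G.edgeSet.ncard + (G.neighborSet v).ncard + 1 := by
  classical
  have hsub : (twin G v).edgeSet ⊆ Sym2.map some '' G.edgeSet ∪
      ((fun a => s(none, some a)) '' G.neighborSet v ∪ {s(none, some v)}) := by
    intro e he
    induction e with
    | _ x y =>
    rw [mem_edgeSet] at he
    rcases x with _ | a
    · rcases y with _ | b
      · exact he.elim
      · rcases he with h | h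
        · subst h
          exact Or.inr (Or.inr rfl)
        · exact Or.inr (Or.inl ⟨b, h, rfl⟩)
    · rcases y with _ | b
      · rcases he with h | h
        · subst h
          exact Or.inr (Or.inr Sym2.eq_swap)
        · exact Or.inr (Or.inl ⟨a, h, Sym2.eq_swap⟩)
      · exact Or.inl ⟨s(a, b), he, rfl⟩
  refine (Set.ncard_le_ncard hsub (Set.toFinite _)).trans ?_
  refine (Set.ncard_union_le _ _).trans ?_
  refine (Nat.add_le_add (Set.ncard_image_le (Set.toFinite _))
    ((Set.ncard_union_le _ _).trans (Nat.add_le_add (Set.ncard_image_le (Set.toFinite _)) le_rfl))).trans ?_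
  rw [Set.ncard_singleton]
  omega

/-- A vertex of degree at most three. -/
theorem exists_small {n : ℕ} (G : SimpleGraph (Fin n)) (h : G.edgeSet.ncard < 2 * n) :
    ∃ v, (G.neighborSet v).ncard ≤ 3 := by
  classical
  by_contra hcon
  push Not at hcon
  have h1 := G.sum_degrees_eq_twice_card_edges
  have h2 : ∀ v, G.degree v = (G.neighborSet v).ncard := by
    intro v
    rw [← card_neighborSet_eq_degree, Set.ncard_eq_toFinset_card', Set.toFinset_card]
  have h3 : G.edgeFinset.card = G.edgeSet.ncard := by
    rw [Set.ncard_eq_toFinset_card', SimpleGraph.edgeFinset]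
  have h4 : 4 * n ≤ ∑ v, G.degree v := by
    calc 4 * n = ∑ _v : Fin n, 4 := by simp [mul_comm]
    _ ≤ ∑ v, G.degree v := Finset.sum_le_sum fun v _ => by rw [h2]; exact hcon v
  rw [h1, h3] at h4
  omega

theorem transport {V W : Type} [Fintype V] [Fintype W] {G : SimpleGraph V} (φ : V ≃ W)
    (hG : EdgePancyclic G) : EdgePancyclic (G.map φ.toEmbedding) ∧
      (G.map φ.toEmbedding).edgeSet.ncard = G.edgeSet.ncard := by
  have hiso : ∀ a b, G.Adj a b → (G.map φ.toEmbedding).Adj (φ a) (φ b) := by
    intro a b h
    rw [SimpleGraph.map_adj]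
    exact ⟨a, b, h, rfl, rfl⟩
  have himg : (G.map φ.toEmbedding).edgeSet = Sym2.map φ '' G.edgeSet := by
    rw [SimpleGraph.edgeSet_map]; rfl
  refine ⟨⟨?_, ?_⟩, ?_⟩
  · rw [himg]
    exact hG.1.image _
  · intro e he k hk hk'
    rw [himg] at he
    obtain ⟨e', he', rfl⟩ := he
    exact (hG.2 e' he' k hk (by rwa [Fintype.card_congr φ])).map φ φ.injective hiso
  · rw [himg]
    exact Set.ncard_image_of_injective _ (Sym2.map.injective φ.injective)

/-! ### Wheels -/

/-- The wheel with `m` spokes. -/
def wheel (m : ℕ) : SimpleGraph (Option (ZMod m)) :=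
  SimpleGraph.fromRel fun x y => match x, y with
    | none, some _ => True
    | some a, some b => b = a + 1
    | _, _ => False

theorem wheel_cycle {m : ℕ} (hm : 3 ≤ m) (i : ZMod m) {k : ℕ} (hk : 3 ≤ k) (hk' : k ≤ m + 1) :
    InCycle (wheel m) k s(none, some i) ∧ InCycle (wheel m) k s(some i, some (i + 1)) := by
  have : NeZero m := ⟨by omega⟩
  have hone : ∀ a : ZMod m, a ≠ a + 1 := by
    intro a h
    have h1 : (1 : ZMod m) = 0 := by
      have := h.symm
      simpa using this
    have h2 : ((1 : ℕ) : ZMod m) = 0 := by exact_mod_cast h1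
    rw [ZMod.natCast_eq_zero_iff] at h2
    have := Nat.le_of_dvd one_pos h2
    omega
  set f : ℕ → Option (ZMod m) := fun j => if j = 0 ∨ j = k then none else some (i + ((j - 1 : ℕ) : ZMod m))
    with hf
  have f1 : Set.InjOn f (Set.Iio k) := by
    intro x hx y hy hxy
    have hx' : x < k := hx
    have hy' : y < k := hy
    simp only [hf] at hxy
    rcases Nat.eq_zero_or_pos x with rfl | hx0
    · rcases Nat.eq_zero_or_pos y with rfl | hy0
      · rfl
      · rw [if_pos (Or.inl rfl), if_neg (by omega)] at hxy
        cases hxy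
    · rcases Nat.eq_zero_or_pos y with rfl | hy0
      · rw [if_pos (Or.inl (rfl : (0 : ℕ) = 0)), if_neg (by omega)] at hxy
        cases hxy
      · rw [if_neg (by omega), if_neg (by omega), Option.some_inj, add_right_inj,
          ZMod.natCast_eq_natCast_iff'] at hxy
        rw [Nat.mod_eq_of_lt (by omega), Nat.mod_eq_of_lt (by omega)] at hxy
        omega
  have f2 : f k = f 0 := by simp [hf]
  have f3 : ∀ j < k, (wheel m).Adj (f j) (f (j + 1)) := by
    intro j hj
    simp only [hf]
    rcases Nat.eq_zero_or_pos j with rfl | hj0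
    · rw [if_pos (Or.inl rfl), if_neg (by omega)]
      exact ⟨by simp, Or.inl trivial⟩
    · rw [if_neg (by omega)]
      rcases Nat.lt_or_ge (j + 1) k with h | h
      · rw [if_neg (by omega)]
        have h5 : i + ((j + 1 - 1 : ℕ) : ZMod m) = i + ((j - 1 : ℕ) : ZMod m) + 1 := by
          rw [show j + 1 - 1 = j - 1 + 1 by omega]
          push_cast
          ring
        rw [h5]
        exact ⟨fun h => hone _ (Option.some_inj.1 h), Or.inl rfl⟩
      · rw [if_pos (Or.inr (by omega))]
        exact ⟨by simp, Or.inr trivial⟩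
  have e1 : f 1 = some i := by
    simp only [hf]
    rw [if_neg (by omega)]
    simp
  have e2 : f 2 = some (i + 1) := by
    simp only [hf]
    rw [if_neg (by omega)]
    simp
  have e0 : f 0 = none := by simp [hf]
  exact ⟨⟨f, f1, f2, f3, 0, by omega, by rw [e0, e1]⟩, ⟨f, f1, f2, f3, 1, by omega, by rw [e1, e2]⟩⟩

theorem wheel_pancyclic {m : ℕ} [Fintype (ZMod m)] (hm : 3 ≤ m) : EdgePancyclic (wheel m) := by
  refine ⟨⟨s(none, some 0), ?_⟩, ?_⟩
  · exact ⟨by simp, Or.inl trivial⟩
  · intro e he k hk hk'
    have hcard : Fintype.card (Option (ZMod m)) = m + 1 := by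
      rw [Fintype.card_option, ZMod.card]
    rw [hcard] at hk'
    induction e with
    | _ x y =>
    obtain ⟨-, h⟩ := he
    rcases x with _ | a
    · rcases y with _ | b
      · rcases h with h | h <;> exact h.elim
      · exact (wheel_cycle hm b hk hk').1
    · rcases y with _ | b
      · rw [Sym2.eq_swap]
        exact (wheel_cycle hm a hk hk').1
      · rcases h with h | h
        · have h' : b = a + 1 := h
          rw [h']
          exact (wheel_cycle hm a hk hk').2
        · have h' : a = b + 1 := h
          rw [Sym2.eq_swap, h']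
          exact (wheel_cycle hm b hk hk').2

theorem wheel_edges {m : ℕ} (hm : 3 ≤ m) : (wheel m).edgeSet.ncard ≤ 2 * m := by
  have : NeZero m := ⟨by omega⟩
  have hsub : (wheel m).edgeSet ⊆ Set.range (fun i : ZMod m => s(none, some i)) ∪
      Set.range (fun i : ZMod m => s(some i, some (i + 1))) := by
    intro e he
    induction e with
    | _ x y =>
    obtain ⟨-, h⟩ := he
    rcases x with _ | a
    · rcases y with _ | b
      · rcases h with h | h <;> exact h.elim
      · exact Or.inl ⟨b, rfl⟩
    · rcases y with _ | b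
      · exact Or.inl ⟨a, Sym2.eq_swap⟩
      · rcases h with h | h
        · have h' : b = a + 1 := h
          exact Or.inr ⟨a, by rw [h']⟩
        · have h' : a = b + 1 := h
          exact Or.inr ⟨b, by rw [h']; exact Sym2.eq_swap⟩
  have hr : ∀ g : ZMod m → Sym2 (Option (ZMod m)), (Set.range g).ncard ≤ m := by
    intro g
    rw [← Set.image_univ]
    refine (Set.ncard_image_le (Set.toFinite _)).trans ?_
    rw [Set.ncard_univ, Nat.card_zmod]
  refine (Set.ncard_le_ncard hsub (Set.toFinite _)).trans ?_
  refine (Set.ncard_union_le _ _).trans ?_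
  have := hr (fun i : ZMod m => s(none, some i))
  have := hr (fun i : ZMod m => s(some i, some (i + 1)))
  omega

end Pool.Agent.KS6_21.EP
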